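import Pool.Agent.H41.HKB.Targets

set_option autoImplicit false

namespace Pool.Agent.H82.HKB

open Finset Pool.Agent.H41.HKB Pool.Agent.H42.BD
open scoped Classical

theorem common (f : ℕ → ℝ) (hf : ∀ q, 0 < f q) (k : ℕ) :
    ∃ c : ℝ, 0 < c ∧ ∀ q ≤ k, c ≤ f q := by
  induction k with
  | zero => exact ⟨f 0, hf 0, fun q hq => by rw [Nat.le_zero.1 hq]⟩
  | succ k ih =>
    obtain ⟨c, hc, hcf⟩ := ih
    refine ⟨min c (f (k + 1)), lt_min hc (hf _), fun q hq => ?_⟩
    rcases Nat.lt_or_ge q (k + 1) with h | h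
    · exact (min_le_left _ _).trans (hcf q (by omega))
    · rw [le_antisymm hq h]
      exact min_le_right _ _

/-- the graph on the disjoint union -/
def gr {I : Type} {A : I → Type} (E : ∀ i j, A i → A j → Prop)
    (hE : ∀ i j a b, E i j a b → E j i b a) : SimpleGraph (Σ i, A i) where
  Adj p r := p.1 ≠ r.1 ∧ E p.1 r.1 p.2 r.2
  symm := ⟨fun _ _ h => ⟨h.1.symm, hE _ _ _ _ h.2⟩⟩
  loopless := ⟨fun _ h => h.1 rfl⟩

theorem card_fib {Z P : Type} [Fintype Z] (p : Z → P) (D : Finset P) (T : ℕ)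
    (hD : ∀ z, p z ∈ D) (hT : ∀ d ∈ D, (univ.filter fun z => p z = d).card ≤ T) :
    Fintype.card Z ≤ T * D.card := by
  have h := Finset.card_le_mul_card_image_of_maps_to (f := p) (s := (univ : Finset Z)) (t := D)
    (fun z _ => hD z) T hT
  rwa [Finset.card_univ] at h

theorem cliques_le {I : Type} [Fintype I] {A : I → Type} [∀ i, Fintype (A i)]
    (E : ∀ i j, A i → A j → Prop) (hE : ∀ i j a b, E i j a b → E j i b a) :
    ((univ : Finset (Fin (Fintype.card I) → Σ i, A i)).filter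
      (fun f => ∀ i j, i < j → (gr E hE).Adj (f i) (f j))).card ≤
    Fintype.card I ^ Fintype.card I * ((univ : Finset (∀ i, A i)).filter
      (fun f => ∀ i j, i ≠ j → E i j (f i) (f j))).card := by
  set q := Fintype.card I with hq
  set Good := (univ : Finset (∀ i, A i)).filter (fun f => ∀ i j, i ≠ j → E i j (f i) (f j))
  let F : (Fin q → I) × (∀ i, A i) → (Fin q → Σ i, A i) := fun p i => ⟨p.1 i, p.2 (p.1 i)⟩
  have hsub : ((univ : Finset (Fin q → Σ i, A i)).filter
      (fun f => ∀ i j, i < j → (gr E hE).Adj (f i) (f j))) ⊆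
      ((univ : Finset (Fin q → I)) ×ˢ Good).image F := by
    intro f hf
    rw [Finset.mem_filter] at hf
    have hadj : ∀ i j, i ≠ j → (gr E hE).Adj (f i) (f j) := by
      intro i j hij
      rcases lt_or_gt_of_ne hij with h | h
      · exact hf.2 i j h
      · exact (hf.2 j i h).symm
    have hinj : Function.Injective (fun i => (f i).1) := by
      intro i j hij
      by_contra hne
      exact (hadj i j hne).1 hij
    have hsurj : Function.Surjective (fun i => (f i).1) :=
      ((Fintype.bijective_iff_injective_and_card _).2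
        ⟨hinj, by rw [Fintype.card_fin]⟩).2
    have hg : ∀ c : I, ∃ a : A c, ∀ i, (f i).1 = c → f i = ⟨c, a⟩ := by
      intro c
      obtain ⟨i0, rfl⟩ := hsurj c
      refine ⟨(f i0).2, fun i hi => ?_⟩
      have : i = i0 := hinj hi
      rw [this]
    choose g hg using hg
    refine Finset.mem_image.2 ⟨(fun i => (f i).1, g), ?_, ?_⟩
    · refine Finset.mem_product.2 ⟨Finset.mem_univ _, Finset.mem_filter.2 ⟨Finset.mem_univ _, ?_⟩⟩
      intro c c' hcc
      obtain ⟨i, hi⟩ := hsurj c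
      obtain ⟨i', hi'⟩ := hsurj c'
      have hne : i ≠ i' := by
        rintro rfl
        exact hcc (hi.symm.trans hi')
      have h := hadj i i' hne
      rw [hg c i hi, hg c' i' hi'] at h
      exact h.2
    · funext i
      exact (hg (f i).1 i rfl).symm
  refine (Finset.card_le_card hsub).trans (Finset.card_image_le.trans ?_)
  rw [Finset.card_product, Finset.card_univ, Fintype.card_fun, Fintype.card_fin]

theorem pf_PACK (hREM : T_REM) : T_PACK := by
  intro k T η hη
  have hδ : 0 < η / (2 * ((T : ℝ) + 1) * ((k : ℝ) + 1) ^ 2) := by positivity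
  set δ := η / (2 * ((T : ℝ) + 1) * ((k : ℝ) + 1) ^ 2) with hδd
  choose κf hκf hR using fun q => hREM q δ hδ
  obtain ⟨k0, hk0, hk0f⟩ := common κf hκf k
  obtain ⟨mu, hmu, hmu1, hmu2⟩ : ∃ mu : ℝ, 0 < mu ∧ mu ≤ 1 ∧ mu ^ 2 * ((T : ℝ) + 1) ≤ η := by
    have hp : 0 < η / ((T : ℝ) + 1) := by positivity
    refine ⟨min 1 (Real.sqrt (η / ((T : ℝ) + 1))), lt_min one_pos (Real.sqrt_pos.2 hp),
      min_le_left _ _, ?_⟩
    have h1 : min 1 (Real.sqrt (η / ((T : ℝ) + 1))) ^ 2 ≤ Real.sqrt (η / ((T : ℝ) + 1)) ^ 2 :=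
      pow_le_pow_left₀ (le_min zero_le_one (Real.sqrt_nonneg _)) (min_le_right _ _) 2
    rw [Real.sq_sqrt hp.le] at h1
    have h2 : (0 : ℝ) < (T : ℝ) + 1 := by positivity
    calc _ ≤ η / ((T : ℝ) + 1) * ((T : ℝ) + 1) := mul_le_mul_of_nonneg_right h1 h2.le
      _ = η := div_mul_cancel₀ _ h2.ne'
  refine ⟨k0 * mu ^ k / ((k : ℝ) ^ k + 1), by positivity, ?_⟩
  intro I _ A _ E s Z _ t h2 hk hE hs hA ht hT hZ
  set q := Fintype.card I with hq
  have hcardV : (Fintype.card (Σ i, A i) : ℝ) ≤ k * s := by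
    rw [Fintype.card_sigma]
    push_cast
    calc ∑ i, (Fintype.card (A i) : ℝ) ≤ ∑ _i : I, s := Finset.sum_le_sum fun i _ => hA i
      _ = q * s := by rw [Finset.sum_const, Finset.card_univ, nsmul_eq_mul]
      _ ≤ k * s := mul_le_mul_of_nonneg_right (by exact_mod_cast hk) hs.le
  -- lower bound for the number of the vertices
  have hlow : mu * s ≤ (Fintype.card (Σ i, A i) : ℝ) := by
    have hq1 : 1 < Fintype.card I := by omega
    obtain ⟨i, j, hij⟩ := Fintype.exists_pair_of_one_lt_card hq1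
    have h1 : Fintype.card Z ≤ T * ((univ : Finset (A i × A j))).card := by
      refine card_fib (fun z => (t z i, t z j)) univ T (fun z => Finset.mem_univ _) ?_
      rintro ⟨a, b⟩ -
      refine le_trans (le_of_eq ?_) (hT i j hij a b)
      congr 1
      ext z
      simp only [Finset.mem_filter, Finset.mem_univ, true_and, Prod.mk.injEq]
    rw [Finset.card_univ, Fintype.card_prod] at h1
    have hAi : ∀ i, Fintype.card (A i) ≤ Fintype.card (Σ i, A i) := fun i =>
      Fintype.card_le_of_injective (fun a => (⟨i, a⟩ : Σ i, A i)) (fun a b h => by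
        simpa using h)
    have h3 : (Fintype.card Z : ℝ) ≤ T * (Fintype.card (Σ i, A i) : ℝ) ^ 2 := by
      have h4 : Fintype.card Z ≤ T * (Fintype.card (Σ i, A i)) ^ 2 := by
        refine h1.trans (Nat.mul_le_mul_left _ ?_)
        rw [sq]
        exact Nat.mul_le_mul (hAi i) (hAi j)
      exact_mod_cast h4
    have h5 : (mu * s) ^ 2 * ((T : ℝ) + 1) ≤ (Fintype.card (Σ i, A i) : ℝ) ^ 2 * ((T : ℝ) + 1) := by
      calc (mu * s) ^ 2 * ((T : ℝ) + 1) = mu ^ 2 * ((T : ℝ) + 1) * s ^ 2 := by ring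
        _ ≤ η * s ^ 2 := mul_le_mul_of_nonneg_right hmu2 (sq_nonneg _)
        _ ≤ Fintype.card Z := hZ
        _ ≤ T * (Fintype.card (Σ i, A i) : ℝ) ^ 2 := h3
        _ ≤ _ := by nlinarith [sq_nonneg (Fintype.card (Σ i, A i) : ℝ)]
    have h6 := le_of_mul_le_mul_right h5 (by positivity)
    exact (pow_le_pow_iff_left₀ (by positivity) (by positivity) two_ne_zero).1 h6
  -- the removal lemma
  have hmain := hR q (Σ i, A i) (gr E hE) (by
    intro G' hG' hoe
    by_contra hcon
    push Not at hcon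
    have hbad : ∀ z, ∃ p : (Σ i, A i) × (Σ i, A i), (gr E hE).Adj p.1 p.2 ∧ ¬ G'.Adj p.1 p.2 ∧
        t z p.1.1 = p.1.2 ∧ t z p.2.1 = p.2.2 := by
      intro z
      let e : Fin q ≃ I := (Fintype.equivFin I).symm
      obtain ⟨i, j, hij, hn⟩ := hcon (fun i => ⟨e i, t z (e i)⟩)
      refine ⟨(⟨e i, t z (e i)⟩, ⟨e j, t z (e j)⟩), ?_, hn, rfl, rfl⟩
      have hne : e i ≠ e j := fun h => hij.ne (e.injective h)
      exact ⟨hne, ht z _ _ hne⟩
    choose p hp1 hp2 hp3 hp4 using hbad
    let D := (univ : Finset ((Σ i, A i) × (Σ i, A i))).filter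
      (fun p => (gr E hE).Adj p.1 p.2 ∧ ¬ G'.Adj p.1 p.2)
    have hZD : Fintype.card Z ≤ T * D.card := by
      refine card_fib p D T (fun z => Finset.mem_filter.2 ⟨Finset.mem_univ _, hp1 z, hp2 z⟩) ?_
      rintro ⟨⟨i, a⟩, ⟨j, b⟩⟩ hd
      have hd' := (Finset.mem_filter.1 hd).2.1
      refine le_trans (Finset.card_le_card ?_) (hT i j hd'.1 a b)
      intro z hz
      have hz' : p z = (⟨i, a⟩, ⟨j, b⟩) := by
        simp only [Finset.mem_filter, Finset.mem_univ, true_and] at hz
        exact hz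
      have q3 := hp3 z
      have q4 := hp4 z
      rw [hz'] at q3 q4
      exact Finset.mem_filter.2 ⟨Finset.mem_univ _, q3, q4⟩
    have hDc : (D.card : ℝ) = oe (gr E hE) - oe G' := by
      have h7 : D.card + oe G' = oe (gr E hE) := by
        unfold oe
        rw [← Finset.card_union_of_disjoint]
        · congr 1
          ext p
          simp only [D, Finset.mem_union, Finset.mem_filter, Finset.mem_univ, true_and]
          constructor
          · rintro (h | h)
            · exact h.1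
            · exact hG' h
          · intro h
            by_cases h' : G'.Adj p.1 p.2
            · exact Or.inr h'
            · exact Or.inl ⟨h, h'⟩
        · refine Finset.disjoint_left.2 fun p hp hp' => ?_
          exact (Finset.mem_filter.1 hp).2.2 (Finset.mem_filter.1 hp').2
      have h8 : ((D.card + oe G' : ℕ) : ℝ) = (oe (gr E hE) : ℝ) := by rw [h7]
      push_cast at h8
      linarith
    have hZr : (Fintype.card Z : ℝ) ≤ T * D.card := by exact_mod_cast hZD
    have hcV0 : (0 : ℝ) ≤ Fintype.card (Σ i, A i) := Nat.cast_nonneg _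
    have h9 : (D.card : ℝ) ≤ δ * (k * s) ^ 2 := by
      rw [hDc]
      refine hoe.trans (mul_le_mul_of_nonneg_left ?_ hδ.le)
      exact pow_le_pow_left₀ hcV0 hcardV 2
    have h10 : η * s ^ 2 ≤ T * (δ * (k * s) ^ 2) := by
      refine (hZ.trans hZr).trans ?_
      exact mul_le_mul_of_nonneg_left h9 (Nat.cast_nonneg _)
    have h11 : (T : ℝ) * (δ * k ^ 2) ≤ η / 2 := by
      rw [hδd]
      have hk2 : (k : ℝ) ^ 2 ≤ ((k : ℝ) + 1) ^ 2 := by
        have : (0 : ℝ) ≤ k := Nat.cast_nonneg _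
        nlinarith
      have hT0 : (0 : ℝ) ≤ T := Nat.cast_nonneg _
      have hden : 0 < 2 * ((T : ℝ) + 1) * ((k : ℝ) + 1) ^ 2 := by positivity
      rw [div_mul_eq_mul_div, mul_div_assoc', div_le_iff₀ hden]
      have : (T : ℝ) * (η * k ^ 2) ≤ ((T : ℝ) + 1) * (η * ((k : ℝ) + 1) ^ 2) := by
        refine mul_le_mul (by linarith) (mul_le_mul_of_nonneg_left hk2 hη.le) (by positivity)
          (by positivity)
      nlinarith
    have h12 : (T : ℝ) * (δ * (k * s) ^ 2) = T * (δ * k ^ 2) * s ^ 2 := by ring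
    rw [h12] at h10
    have hs2 : 0 < s ^ 2 := by positivity
    have h13 := mul_le_mul_of_nonneg_right h11 hs2.le
    nlinarith)
  have hcl := cliques_le (I := I) (A := A) E hE
  rw [← hq] at hcl
  set Good := (univ : Finset (∀ i, A i)).filter (fun f => ∀ i j, i ≠ j → E i j (f i) (f j))
  have hcl' : κf q * (Fintype.card (Σ i, A i) : ℝ) ^ q ≤ (q : ℝ) ^ q * Good.card := by
    refine hmain.trans ?_
    exact_mod_cast hcl
  have hpow : (mu * s) ^ q ≤ (Fintype.card (Σ i, A i) : ℝ) ^ q :=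
    pow_le_pow_left₀ (by positivity) hlow q
  have hG0 : (0 : ℝ) ≤ Good.card := Nat.cast_nonneg _
  have hqk : (q : ℝ) ^ q ≤ (k : ℝ) ^ k + 1 := by
    have h14 : q ^ q ≤ k ^ k := by
      refine (Nat.pow_le_pow_left hk q).trans (Nat.pow_le_pow_right (by omega) hk)
    have : ((q ^ q : ℕ) : ℝ) ≤ ((k ^ k : ℕ) : ℝ) := by exact_mod_cast h14
    push_cast at this
    linarith
  have hmuk : mu ^ k ≤ mu ^ q := pow_le_pow_of_le_one hmu.le hmu1 hk
  rw [div_mul_eq_mul_div, div_le_iff₀ (by positivity)]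
  calc k0 * mu ^ k * s ^ q ≤ κf q * mu ^ q * s ^ q := by
        refine mul_le_mul_of_nonneg_right ?_ (by positivity)
        exact mul_le_mul (hk0f q hk) hmuk (by positivity) (hκf q).le
    _ = κf q * (mu * s) ^ q := by rw [mul_pow]; ring
    _ ≤ κf q * (Fintype.card (Σ i, A i) : ℝ) ^ q := mul_le_mul_of_nonneg_left hpow (hκf q).le
    _ ≤ (q : ℝ) ^ q * Good.card := hcl'
    _ ≤ ((k : ℝ) ^ k + 1) * Good.card := mul_le_mul_of_nonneg_right hqk hG0
    _ = Good.card * ((k : ℝ) ^ k + 1) := mul_comm _ _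

end Pool.Agent.H82.HKB
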